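import Pool.Agent.Lib.MP_6d445e_gt.Iface

/-!
Modules ND and MXF: nodes and conditions of Miller forcing.
-/

set_option autoImplicit false

universe u v

open Cardinal Filter

namespace Pool.Agent.Lib.MP_6d445e_gt.H59

open Pool.Agent.Lib.MP_100a6c_lc
open Pool.Agent.Lib.MP_c5d73d_lc.F (pr)
open Pool.Agent.Lib.MP_c5d73d_lc.F.H62 (eq_iSup_pr pr_ne_bot)
open Pool.Agent.Lib.MP_e6fef2_lc
open Pool.Agent.Lib.MP_6d445e_gt

/-! ## Combinatorics of trees -/

theorem cmp_of_prefix {s s' t : List ℕ} (h : s <+: s') (h' : Cmp s' t) : Cmp s t := by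
  rcases h' with h' | h'
  · exact Or.inl (h.trans h')
  · rcases List.prefix_or_prefix_of_prefix h h' with h1 | h1
    · exact Or.inl h1
    · exact Or.inr h1

theorem cmp_symm {s t : List ℕ} (h : Cmp s t) : Cmp t s := h.symm

theorem inc_nil : Inc [] := List.Pairwise.nil

theorem inc_prefix {t t' : List ℕ} (h : t <+: t') (h' : Inc t') : Inc t :=
  List.Pairwise.sublist h.sublist h'

theorem inc_append {t : List ℕ} (h : Inc t) {k : ℕ} (hk : ∀ i ∈ t, i < k) : Inc (t ++ [k]) := by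
  unfold Inc at *
  rw [List.pairwise_append]
  refine ⟨h, List.pairwise_singleton _ _, ?_⟩
  intro a ha b hb
  rw [List.mem_singleton] at hb
  rw [hb]
  exact hk a ha

theorem isMil_inc : IsMil {t : List ℕ | Inc t} where
  nil := inc_nil
  pre _ _ h h' := inc_prefix h h'
  inc _ h := h
  spl t ht := by
    refine ⟨t, List.prefix_rfl, fun m => ?_⟩
    refine ⟨max m (t.foldr max 0 + 1), le_max_left _ _, inc_append ht fun i hi => ?_⟩
    have h1 : i ≤ t.foldr max 0 := by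
      clear ht
      induction t with
      | nil => simp at hi
      | cons a t ih =>
        simp only [List.foldr_cons]
        rcases List.mem_cons.1 hi with rfl | hi
        · exact le_max_left _ _
        · exact (ih hi).trans (le_max_right _ _)
    exact lt_of_lt_of_le (Nat.lt_succ_of_le h1) (le_max_right _ _)

theorem IsMil.child {T : Set (List ℕ)} (h : IsMil T) {t : List ℕ} (ht : t ∈ T) :
    ∃ k, t ++ [k] ∈ T := by
  obtain ⟨t', h1, h2⟩ := h.spl t ht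
  obtain ⟨k, -, hk⟩ := h2 0
  obtain ⟨l, rfl⟩ := h1
  cases l with
  | nil => exact ⟨k, by simpa using hk⟩
  | cons x l =>
    refine ⟨x, h.pre _ _ ?_ hk⟩
    refine ⟨l ++ [k], ?_⟩
    simp

theorem IsMil.long {T : Set (List ℕ)} (h : IsMil T) (n : ℕ) : ∃ t ∈ T, t.length = n := by
  induction n with
  | zero => exact ⟨[], h.nil, rfl⟩
  | succ n ih =>
    obtain ⟨t, ht, hn⟩ := ih
    obtain ⟨k, hk⟩ := IsMil.child h ht
    exact ⟨_, hk, by simp [hn]⟩

/-- If all nodes are comparable with `t`, then `t` is a node. -/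
theorem IsMil.mem_of_cmp {T : Set (List ℕ)} (h : IsMil T) {t : List ℕ}
    (ht : ∀ s ∈ T, Cmp s t) : t ∈ T := by
  obtain ⟨s, hs, hn⟩ := IsMil.long h (t.length)
  rcases ht s hs with h1 | h1
  · rw [List.IsPrefix.eq_of_length h1 hn] at hs
    exact hs
  · exact h.pre _ _ h1 hs

theorem IsMil.restrict {T : Set (List ℕ)} (h : IsMil T) {t : List ℕ} (ht : t ∈ T) :
    IsMil {s | s ∈ T ∧ Cmp s t} where
  nil := ⟨h.nil, Or.inl List.nil_prefix⟩
  pre s s' hs hs' := ⟨h.pre _ _ hs hs'.1, cmp_of_prefix hs hs'.2⟩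
  inc s hs := h.inc s hs.1
  spl s hs := by
    rcases hs.2 with h1 | h1
    · obtain ⟨t', h2, h3⟩ := h.spl t ht
      refine ⟨t', h1.trans h2, fun m => ?_⟩
      obtain ⟨k, hk, hk'⟩ := h3 m
      exact ⟨k, hk, hk', Or.inr (h2.trans (List.prefix_append _ _))⟩
    · obtain ⟨t', h2, h3⟩ := h.spl s hs.1
      refine ⟨t', h2, fun m => ?_⟩
      obtain ⟨k, hk, hk'⟩ := h3 m
      exact ⟨k, hk, hk', Or.inr ((h1.trans h2).trans (List.prefix_append _ _))⟩

/-! ## Trees and ultrafilters -/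

section

variable {A : Type u} [CompleteBooleanAlgebra A]

instance : Nonempty (MX A) := by
  classical
  refine ⟨⟨fun t => if Inc t then ⊤ else ⊥, Filter.Eventually.of_forall fun g => ?_⟩⟩
  have : {t : List ℕ | (if Inc t then (⊤ : A) else ⊥) ∈ g} = {t | Inc t} := by
    ext t
    simp only [Set.mem_ofPred_eq]
    split_ifs with h
    · simp [g.mem_top, h]
    · simp [g.not_bot, h]
  rw [this]
  exact isMil_inc

theorem mem_stm (τ : MX A) (t : List ℕ) :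
    ∀ᶠ g in ae A, stm τ t ∈ g ↔ τ.1 t ∈ g ∧ ∀ s, τ.1 s ∈ g → Cmp s t := by
  filter_upwards [ae_iInf fun s : List ℕ => ⨅ _ : ¬ Cmp s t, (τ.1 s)ᶜ,
    ae_all fun s : List ℕ => ae_iInf fun _ : ¬ Cmp s t => (τ.1 s)ᶜ] with g h1 h2
  unfold stm
  rw [g.mem_inf, h1]
  refine and_congr_right fun _ => forall_congr' fun s => ?_
  rw [h2]
  simp only [g.mem_compl]
  exact not_imp_not

theorem mem_le (τ τ' : MX A) :
    ∀ᶠ g in ae A, (MQ A).le τ τ' ∈ g ↔ ∀ s, τ.1 s ∈ g → τ'.1 s ∈ g := by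
  filter_upwards [ae_iInf fun s : List ℕ => τ.1 s ⇨ τ'.1 s] with g h1
  change (⨅ t, τ.1 t ⇨ τ'.1 t) ∈ g ↔ _
  rw [h1]
  simp only [g.mem_himp]

theorem measurableSet_isMil (τ : List ℕ → A) :
    MeasurableSet {g : Ult A | IsMil {t | τ t ∈ g}} := by
  have h : {g : Ult A | IsMil {t | τ t ∈ g}} =
      {g | τ [] ∈ g} ∩ (⋂ t, ⋂ t', ⋂ _ : t <+: t', ({g | τ t' ∈ g}ᶜ ∪ {g | τ t ∈ g})) ∩
      (⋂ t, ⋂ _ : ¬ Inc t, {g | τ t ∈ g}ᶜ) ∩
      (⋂ t, ({g | τ t ∈ g}ᶜ ∪ ⋃ t', ⋃ _ : t <+: t', ⋂ m, ⋃ k, ⋃ _ : m ≤ k,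
        {g | τ (t' ++ [k]) ∈ g})) := by
    ext g
    simp only [Set.mem_ofPred_eq, Set.mem_inter_iff, Set.mem_iInter, Set.mem_union,
      Set.mem_compl_iff, Set.mem_iUnion]
    constructor
    · intro h
      refine ⟨⟨⟨h.nil, fun t t' h1 => ?_⟩, fun t h1 h2 => h1 (h.inc t h2)⟩, fun t => ?_⟩
      · by_cases h2 : τ t' ∈ g
        · exact Or.inr (h.pre t t' h1 h2)
        · exact Or.inl h2
      · by_cases h2 : τ t ∈ g
        · obtain ⟨t', h3, h4⟩ := h.spl t h2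
          refine Or.inr ⟨t', h3, fun m => ?_⟩
          obtain ⟨k, hk, hk'⟩ := h4 m
          exact ⟨k, hk, hk'⟩
        · exact Or.inl h2
    · rintro ⟨⟨⟨h1, h2⟩, h3⟩, h4⟩
      refine ⟨h1, fun t t' h5 h6 => ?_, fun t h5 => ?_, fun t h5 => ?_⟩
      · rcases h2 t t' h5 with h | h
        · exact absurd h6 h
        · exact h
      · by_contra h6
        exact h3 t h6 h5
      · rcases h4 t with h | ⟨t', h6, h7⟩
        · exact absurd h5 h
        · refine ⟨t', h6, fun m => ?_⟩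
          obtain ⟨k, hk, hk'⟩ := h7 m
          exact ⟨k, hk, hk'⟩
  rw [h]
  have hm : ∀ t, MeasurableSet {g : Ult A | τ t ∈ g} := fun t => measurable_mem A (τ t)
  refine (((hm []).inter ?_).inter ?_).inter ?_
  · exact MeasurableSet.iInter fun t => MeasurableSet.iInter fun t' => MeasurableSet.iInter
      fun _ => (hm t').compl.union (hm t)
  · exact MeasurableSet.iInter fun t => MeasurableSet.iInter fun _ => (hm t).compl
  · exact MeasurableSet.iInter fun t => (hm t).compl.union (MeasurableSet.iUnion fun t' =>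
      MeasurableSet.iUnion fun _ => MeasurableSet.iInter fun m => MeasurableSet.iUnion fun k =>
        MeasurableSet.iUnion fun _ => hm _)

end

/-! ## Abstract version -/

/-- What is used of the extension by Miller forcing. -/
structure MilExt {A C : Type u} [CompleteBooleanAlgebra A] [CompleteBooleanAlgebra C] (f : A → C)
    (G : MX A → C) : Prop where
  ce : IsCE f
  gf : GenF f (MQ A) G
  pj : ∀ x, prj f (G x) = ⊤
  de : ∀ c : C, c ≠ ⊥ → ∃ (b : A) (τ : MX A), b ≠ ⊥ ∧ f b ⊓ G τ ≤ c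

/-- Nodes of the generic real. -/
def NDa {A C : Type u} [CompleteBooleanAlgebra A] [CompleteBooleanAlgebra C] (f : A → C)
    (G : MX A → C) (t : List ℕ) : C := ⨆ τ : MX A, f (stm τ t) ⊓ G τ

section

variable {A C : Type u} [CompleteBooleanAlgebra A] [CompleteBooleanAlgebra C] {f : A → C}
  {G : MX A → C} (H : MilExt f G)

include H

theorem MilExt.top : f ⊤ = ⊤ := (all_alg A C f H.ce).1
theorem MilExt.bot : f ⊥ = ⊥ := (all_alg A C f H.ce).2.1
theorem MilExt.inf (a b : A) : f (a ⊓ b) = f a ⊓ f b := (all_alg A C f H.ce).2.2.1 a b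
theorem MilExt.le_iff {a b : A} : f a ≤ f b ↔ a ≤ b := (all_alg A C f H.ce).2.2.2.2.1 a b
theorem MilExt.pmono {a b : C} (h : a ≤ b) : prj f a ≤ prj f b :=
  (all_alg A C f H.ce).2.2.2.2.2.2.2.2.2.2.2.2.1 a b h
theorem MilExt.lin (c : C) (a : A) : prj f (c ⊓ f a) = prj f c ⊓ a :=
  (all_alg A C f H.ce).2.2.2.2.2.2.2.2.2.2.2.2.2.2.2.2.1 c a
theorem MilExt.pbot {c : C} : prj f c = ⊥ ↔ c = ⊥ :=
  (all_alg A C f H.ce).2.2.2.2.2.2.2.2.2.2.2.2.2.2.2.2.2.1 c
theorem MilExt.dis {c : C} {a : A} : f a ⊓ c = ⊥ ↔ a ⊓ prj f c = ⊥ :=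
  (all_alg A C f H.ce).2.2.2.2.2.2.2.2.2.2.2.2.2.2.2.2.2.2 c a

theorem MilExt.prj_mG_inf (τ : MX A) (b : A) : prj f (f b ⊓ G τ) = b := by
  rw [inf_comm, H.lin, H.pj, top_inf_eq]

/-- Two trees in the generic filter. -/
theorem MilExt.mG_inf_le (τ τ' : MX A) (a : A) (c : C)
    (h : ∀ σ : MX A, f ((MQ A).le σ τ ⊓ (MQ A).le σ τ' ⊓ a) ⊓ G σ ≤ c) :
    G τ ⊓ G τ' ⊓ f a ≤ c := by
  refine (inf_le_inf_right _ (H.gf.dir τ τ')).trans ?_
  rw [iSup_inf_eq]
  refine iSup_le fun σ => ?_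
  refine le_trans (le_of_eq ?_) (h σ)
  rw [H.inf, H.inf]
  ac_rfl

omit H in
theorem ND_ge (τ : MX A) (t : List ℕ) : f (stm τ t) ⊓ G τ ≤ NDa f G t :=
  le_iSup (fun τ : MX A => f (stm τ t) ⊓ G τ) τ

theorem MilExt.mE_le (τ τ' : MX A) {a : A} (h : a ≤ (MQ A).le τ τ') : f a ⊓ G τ ≤ G τ' :=
  (inf_le_inf_right _ (H.le_iff.2 h)).trans (H.gf.up τ τ')

/-- Restriction to a node. -/
theorem MilExt.exists_restrict (τ : MX A) (t : List ℕ) : ∃ τ' : MX A,
    f (τ.1 t) ⊓ G τ' = G τ ⊓ NDa f G t ∧ τ.1 t ≤ stm τ' t ∧ τ.1 t ≤ (MQ A).le τ' τ := by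
  classical
  let k : List ℕ → A := fun s => if Cmp s t then τ.1 s else τ.1 s ⊓ (τ.1 t)ᶜ
  have hk : ∀ᶠ g in ae A, IsMil {s | k s ∈ g} ∧
      ∀ s, k s ∈ g ↔ τ.1 s ∈ g ∧ (τ.1 t ∈ g → Cmp s t) := by
    filter_upwards [τ.2] with g hg
    have key : ∀ s, k s ∈ g ↔ τ.1 s ∈ g ∧ (τ.1 t ∈ g → Cmp s t) := by
      intro s
      simp only [k]
      split_ifs with h
      · simp [h]
      · rw [g.mem_inf, g.mem_compl]
        refine and_congr_right fun _ => ?_
        constructor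
        · intro h1 h2
          exact absurd h2 h1
        · intro h1 h2
          exact h (h1 h2)
    refine ⟨?_, key⟩
    by_cases h : τ.1 t ∈ g
    · have h1 := IsMil.restrict hg h
      have h2 : {s | k s ∈ g} = {s | s ∈ {t | τ.1 t ∈ g} ∧ Cmp s t} := by
        ext s
        simp only [Set.mem_ofPred_eq]
        rw [key]
        simp [h]
      rw [h2]
      exact h1
    · have h2 : {s | k s ∈ g} = {t | τ.1 t ∈ g} := by
        ext s
        simp only [Set.mem_ofPred_eq]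
        rw [key]
        simp [h]
      rw [h2]
      exact hg
  let τ' : MX A := ⟨k, hk.mono fun _ h => h.1⟩
  have h2 : τ.1 t ≤ stm τ' t := by
    refine le_of_ae ?_
    filter_upwards [hk, mem_stm τ' t] with g h1 h2 h3
    rw [h2]
    refine ⟨(h1.2 t).2 ⟨h3, fun _ => Or.inl List.prefix_rfl⟩, fun s hs => ?_⟩
    exact ((h1.2 s).1 hs).2 h3
  have h3 : τ.1 t ≤ (MQ A).le τ' τ := by
    refine le_of_ae ?_
    filter_upwards [hk, mem_le τ' τ] with g h1 h2 h3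
    rw [h2]
    intro s hs
    exact ((h1.2 s).1 hs).1
  refine ⟨τ', le_antisymm ?_ ?_, h2, h3⟩
  · exact le_inf (H.mE_le τ' τ h3) ((inf_le_inf_right _ (H.le_iff.2 h2)).trans (ND_ge τ' t))
  · unfold NDa
    rw [inf_iSup_eq]
    refine iSup_le fun σ => ?_
    have h4 : G τ ⊓ (f (stm σ t) ⊓ G σ) = G τ ⊓ G σ ⊓ f (stm σ t) := by ac_rfl
    rw [h4]
    refine H.mG_inf_le τ σ _ _ fun ρ => ?_
    have h5 : (MQ A).le ρ τ ⊓ (MQ A).le ρ σ ⊓ stm σ t ≤ τ.1 t ⊓ (MQ A).le ρ τ' := by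
      refine le_of_ae ?_
      filter_upwards [hk, mem_le ρ τ, mem_le ρ σ, mem_le ρ τ', mem_stm σ t, ρ.2] with g h1 h2 h3 h4
        h5 h6 h7
      rw [g.mem_inf, g.mem_inf, h2, h3, h5] at h7
      obtain ⟨⟨h8, h9⟩, h10, h11⟩ := h7
      have h12 : t ∈ {t | ρ.1 t ∈ g} := IsMil.mem_of_cmp h6 fun s hs => h11 s (h9 s hs)
      rw [g.mem_inf, h4]
      exact ⟨h8 t h12, fun s hs => (h1.2 s).2 ⟨h8 s hs, fun _ => h11 s (h9 s hs)⟩⟩
    refine (inf_le_inf_right _ (H.le_iff.2 h5)).trans ?_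
    rw [H.inf]
    refine le_inf (inf_le_left.trans inf_le_left) ?_
    exact (inf_le_inf_right _ inf_le_right).trans (H.mE_le ρ τ' le_rfl)

theorem MilExt.prj_mG_ND (τ : MX A) (t : List ℕ) : prj f (G τ ⊓ NDa f G t) = τ.1 t := by
  obtain ⟨τ', h1, -, -⟩ := H.exists_restrict τ t
  rw [← h1, H.prj_mG_inf]

theorem MilExt.nd_mono (t t' : List ℕ) (h : t <+: t') : NDa f G t' ≤ NDa f G t := by
  refine iSup_le fun τ => ?_
  have h1 : stm τ t' ≤ stm τ t := by
    refine le_of_ae ?_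
    filter_upwards [mem_stm τ t, mem_stm τ t', τ.2] with g h1 h2 h3 h4
    rw [h2] at h4
    rw [h1]
    refine ⟨h3.pre t t' h h4.1, fun s hs => ?_⟩
    rcases h4.2 s hs with h5 | h5
    · exact cmp_symm (cmp_of_prefix h (Or.inr h5))
    · exact Or.inr (h.trans h5)
  exact (inf_le_inf_right _ (H.le_iff.2 h1)).trans (ND_ge τ t)

theorem MilExt.nd_nil : NDa f G [] = ⊤ := by
  have h1 : ∀ τ : MX A, stm τ [] = ⊤ := by
    intro τ
    refine eq_of_ae ?_
    filter_upwards [mem_stm τ [], τ.2] with g h1 h2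
    rw [h1]
    simp only [g.mem_top, iff_true]
    exact ⟨h2.nil, fun s _ => Or.inr List.nil_prefix⟩
  rw [← H.gf.ne]
  unfold NDa
  refine iSup_congr fun τ => ?_
  rw [h1, H.top, top_inf_eq]

theorem MilExt.nd_dis (t t' : List ℕ) (h : ¬ Cmp t t') : NDa f G t ⊓ NDa f G t' = ⊥ := by
  unfold NDa
  rw [iSup_inf_eq, iSup_eq_bot]
  intro τ
  rw [inf_iSup_eq, iSup_eq_bot]
  intro τ'
  have h1 : f (stm τ t) ⊓ G τ ⊓ (f (stm τ' t') ⊓ G τ') =
      G τ ⊓ G τ' ⊓ f (stm τ t ⊓ stm τ' t') := by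
    rw [H.inf]
    ac_rfl
  rw [h1, ← le_bot_iff]
  refine H.mG_inf_le τ τ' _ _ fun σ => ?_
  have h2 : (MQ A).le σ τ ⊓ (MQ A).le σ τ' ⊓ (stm τ t ⊓ stm τ' t') ≤ ⊥ := by
    refine le_of_ae ?_
    filter_upwards [mem_le σ τ, mem_le σ τ', mem_stm τ t, mem_stm τ' t', σ.2] with g h1 h2 h3 h4
      h5 h6
    rw [g.mem_inf, g.mem_inf, g.mem_inf, h1, h2, h3, h4] at h6
    obtain ⟨⟨h7, h8⟩, ⟨-, h9⟩, -, h10⟩ := h6
    have h11 : t ∈ {t | σ.1 t ∈ g} := IsMil.mem_of_cmp h5 fun s hs => h9 s (h7 s hs)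
    exact absurd (h10 t (h8 t h11)) h
  rw [le_bot_iff] at h2
  rw [h2, H.bot, bot_inf_eq]

theorem MilExt.nd_succ (t : List ℕ) : NDa f G t = ⨆ k, NDa f G (t ++ [k]) := by
  refine le_antisymm ?_ (iSup_le fun k => H.nd_mono t _ (List.prefix_append _ _))
  by_contra hcon
  have h1 : NDa f G t ⊓ (⨆ k, NDa f G (t ++ [k]))ᶜ ≠ ⊥ := by
    intro h2
    apply hcon
    rw [← compl_compl (⨆ k, NDa f G (t ++ [k])), le_compl_iff_disjoint_right, disjoint_iff]
    exact h2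
  obtain ⟨b, σ, hb, h2⟩ := H.de _ h1
  have h3 : b ≤ σ.1 t := by
    have h4 : f b ⊓ G σ ≤ G σ ⊓ NDa f G t := le_inf inf_le_right (h2.trans inf_le_left)
    have h5 := H.pmono h4
    rwa [H.prj_mG_inf, H.prj_mG_ND] at h5
  have h4 : b ≤ ⨆ k, σ.1 (t ++ [k]) := by
    refine h3.trans (le_of_ae ?_)
    filter_upwards [σ.2, ae_iSup fun k => σ.1 (t ++ [k])] with g h1 h2 h3
    rw [h2]
    exact IsMil.child h1 h3
  have h5 : ∃ k, b ⊓ σ.1 (t ++ [k]) ≠ ⊥ := by
    by_contra hcon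
    push Not at hcon
    apply hb
    rw [← inf_eq_left.2 h4, inf_iSup_eq, iSup_eq_bot]
    exact hcon
  obtain ⟨k, hk⟩ := h5
  apply hk
  have h6 : b ⊓ σ.1 (t ++ [k]) = prj f (G σ ⊓ NDa f G (t ++ [k]) ⊓ f b) := by
    rw [H.lin, H.prj_mG_ND, inf_comm]
  rw [h6, H.pbot]
  rw [← le_bot_iff, ← inf_compl_self (⨆ k, NDa f G (t ++ [k]))]
  refine le_inf ?_ ?_
  · exact (inf_le_left.trans inf_le_right).trans (le_iSup (fun k => NDa f G (t ++ [k])) k)
  · refine le_trans ?_ (h2.trans inf_le_right)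
    exact le_inf inf_le_right (inf_le_left.trans inf_le_left)

theorem MilExt.nd_inc (t : List ℕ) (ht : ¬ Inc t) : NDa f G t = ⊥ := by
  unfold NDa
  rw [iSup_eq_bot]
  intro τ
  have h1 : stm τ t = ⊥ := by
    rw [← le_bot_iff]
    refine le_of_ae ?_
    filter_upwards [mem_stm τ t, τ.2] with g h1 h2 h3
    rw [h1] at h3
    exact absurd (h2.inc t h3.1) ht
  rw [h1, H.bot, bot_inf_eq]

theorem MilExt.fo_iff (τ : MX A) (c : C) (a : A) : a ≤ (prj f (G τ ⊓ cᶜ))ᶜ ↔ f a ⊓ G τ ≤ c := by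
  rw [le_compl_iff_disjoint_right, disjoint_iff, ← H.dis, ← inf_assoc]
  nth_rewrite 2 [← compl_compl c]
  rw [le_compl_iff_disjoint_right, disjoint_iff]

theorem MilExt.congr (τ τ' : MX A) (a : A) (h : ∀ s, a ⊓ τ'.1 s = a ⊓ τ.1 s) :
    f a ⊓ G τ' = f a ⊓ G τ := by
  have h1 : a ≤ (MQ A).le τ τ' := by
    refine le_iInf fun s => ?_
    rw [le_himp_iff, ← h]
    exact inf_le_right
  have h2 : a ≤ (MQ A).le τ' τ := by
    refine le_iInf fun s => ?_
    rw [le_himp_iff, h]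
    exact inf_le_right
  exact le_antisymm (le_inf inf_le_left (H.mE_le τ' τ h2))
    (le_inf inf_le_left (H.mE_le τ τ' h1))

theorem MilExt.fo_mG (τ τ' : MX A) : (prj f (G τ ⊓ (G τ')ᶜ))ᶜ = (MQ A).le τ τ' := by
  apply le_antisymm
  · have h1 := (H.fo_iff τ (G τ') _).1 le_rfl
    refine le_iInf fun s => ?_
    rw [le_himp_iff]
    have h2 : (prj f (G τ ⊓ (G τ')ᶜ))ᶜ ⊓ τ.1 s =
        prj f (G τ ⊓ NDa f G s ⊓ f (prj f (G τ ⊓ (G τ')ᶜ))ᶜ) := by
      rw [H.lin, H.prj_mG_ND, inf_comm]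
    rw [h2, ← H.prj_mG_ND τ' s]
    refine H.pmono (le_inf ?_ (inf_le_left.trans inf_le_right))
    exact le_trans (le_inf inf_le_right (inf_le_left.trans inf_le_left)) h1
  · rw [H.fo_iff]
    exact H.mE_le τ τ' le_rfl

end

/-- Mixing of trees. -/
theorem exists_mix {A : Type u} [CompleteBooleanAlgebra A] (T : Type v) (a : T → A)
    (τ : T → MX A) (ha : ∀ t t', t ≠ t' → a t ⊓ a t' = ⊥) :
    ∃ τ' : MX A, ∀ t s, a t ⊓ τ'.1 s = a t ⊓ (τ t).1 s := by
  classical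
  let f : List ℕ → A := fun s =>
    (⨆ t, a t ⊓ (τ t).1 s) ⊔ ((⨆ t, a t)ᶜ ⊓ if Inc s then ⊤ else ⊥)
  have hf : ∀ t s, a t ⊓ f s = a t ⊓ (τ t).1 s := by
    intro t s
    simp only [f]
    rw [inf_sup_left, inf_iSup_eq]
    apply le_antisymm
    · refine sup_le (iSup_le fun t' => ?_) ?_
      · by_cases h : t = t'
        · subst h
          exact le_inf inf_le_left (inf_le_right.trans inf_le_right)
        · have h1 : a t ⊓ (a t' ⊓ (τ t').1 s) ≤ ⊥ := by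
            rw [← ha t t' h]
            exact le_inf inf_le_left (inf_le_right.trans inf_le_left)
          exact h1.trans bot_le
      · have h1 : a t ⊓ ((⨆ t, a t)ᶜ ⊓ if Inc s then ⊤ else ⊥) ≤ ⊥ := by
          rw [← inf_compl_self (⨆ t, a t)]
          exact le_inf (inf_le_left.trans (le_iSup a t)) (inf_le_right.trans inf_le_left)
        exact h1.trans bot_le
    · refine le_sup_of_le_left (le_iSup_of_le t ?_)
      exact le_inf inf_le_left le_rfl
  obtain ⟨v, hv⟩ := measurableSet_isMil f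
  have h1 : v = ⊤ := by
    rw [← top_le_iff, ← sup_compl_eq_top (x := ⨆ t, a t)]
    refine sup_le (iSup_le fun t => le_of_ae ?_) (le_of_ae ?_)
    · filter_upwards [hv, (τ t).2] with g h1 h2 h3
      rw [h1]
      have h4 : {s | f s ∈ g} = {s | (τ t).1 s ∈ g} := by
        ext s
        simp only [Set.mem_ofPred_eq]
        have h5 : a t ⊓ f s ∈ g ↔ a t ⊓ (τ t).1 s ∈ g := by rw [hf]
        rw [g.mem_inf, g.mem_inf] at h5
        tauto
      change IsMil {s | f s ∈ g}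
      rw [h4]
      exact h2
    · filter_upwards [hv, ae_iSup a, ae_all fun s => ae_iSup fun t => a t ⊓ (τ t).1 s] with g h1
        h2 h3 h4
      rw [h1]
      have h5 : {s | f s ∈ g} = {s | Inc s} := by
        ext s
        simp only [Set.mem_ofPred_eq, f]
        rw [g.mem_sup, h3, g.mem_inf]
        have h6 : ¬ ∃ t, a t ⊓ (τ t).1 s ∈ g := by
          rintro ⟨t, ht⟩
          exact g.mem_compl.1 h4 (g.mono (le_iSup a t) (g.mem_inf.1 ht).1)
        by_cases h7 : Inc s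
        · simp [h7, h6, h4, g.mem_top]
        · simp [h7, h6, g.not_bot]
      change IsMil {s | f s ∈ g}
      rw [h5]
      exact isMil_inc
  refine ⟨⟨f, ?_⟩, hf⟩
  filter_upwards [hv] with g h2
  rw [h1] at h2
  exact h2.1 g.mem_top

/-- The extension by Miller forcing. -/
theorem milExt (A : Type u) [CompleteBooleanAlgebra A] : MilExt (mE A) (mG (A := A)) where
  ce := (all_tw1 A (MX A) (MQ A)).1
  gf := (all_tw1 A (MX A) (MQ A)).2.2.2.2.2
  pj := (all_tw1 A (MX A) (MQ A)).2.2.2.2.1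
  de := by
    intro c hc
    rw [eq_iSup_pr c] at hc
    have h1 : ∃ p : {p : Tw (MQ A) // pr p ≤ c}, pr p.1 ≠ (⊥ : MC A) := by
      by_contra hcon
      push Not at hcon
      exact hc (iSup_eq_bot.2 hcon)
    obtain ⟨⟨p, hp⟩, -⟩ := h1
    refine ⟨p.b, p.x, p.ne, ?_⟩
    have h2 := (all_tw1 A (MX A) (MQ A)).2.2.1 p
    exact h2 ▸ hp

/-- Module ND. -/
theorem nd : NdStatement.{u} := by
  intro A _
  have H := milExt A
  exact ⟨inferInstance, H.nd_nil, H.nd_mono, H.nd_dis, H.nd_succ, H.nd_inc, H.prj_mG_ND,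
    fun τ t => ND_ge τ t⟩

/-- Module MXF. -/
theorem mxf : MxfStatement.{u} := by
  intro A _
  have H := milExt A
  exact ⟨H.exists_restrict, H.de, H.pj, fun T a τ h => exists_mix T a τ h,
    fun τ τ' a h => H.congr τ τ' a h, fun τ c a => H.fo_iff τ c a, fun τ τ' => H.fo_mG τ τ'⟩

end Pool.Agent.Lib.MP_6d445e_gt.H59
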