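import Pool.Agent.Lib.MP_6d445e_gt.Iface

/-!
Module PRC: composition of extensions which preserve good sets.
-/

set_option autoImplicit false

universe u v

open Cardinal Filter

namespace Pool.Agent.Lib.MP_6d445e_gt.H59

open Pool.Agent.Lib.MP_100a6c_lc
open Pool.Agent.Lib.MP_c5d73d_lc.F (pr)
open Pool.Agent.Lib.MP_e6fef2_lc
open Pool.Agent.Lib.MP_6d445e_gt

/-- Module PRC. -/
theorem prc (hLB : LbStatement.{u}) (hI : ItpStatement.{u}) (hI2 : Itp2Statement.{u})
    (_ : SlaStatement.{u}) : PrcStatement.{u} := by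
  intro A B C _ _ _ f g hf hg h1 h2
  have hAf := all_alg A B f hf
  have hAg := all_alg B C g hg
  obtain ⟨-, -, hadd, -, hitp⟩ := hI B C g hg
  obtain ⟨-, hpm, -, -, -, -, -, hcongr, hsl⟩ := hitp (prj g) hadd
  choose z' hz1 hz2 using fun (c : C) (x : ℕ → C) (y : ℕ → B) => hLB B C g hg (prj g) hadd c x y
  let F : (C × (ℕ → C)) × (ℕ → A) → ℕ → B :=
    fun p n => z' p.1.1 p.1.2 (fun n => f (p.2 n)) n ⊓ prj g p.1.1
  filter_upwards [h1, h2, all_club.2.2.2.2.2.1 C B (prj g),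
    all_club.2.2.2.2.2.1 ((C × (ℕ → C)) × (ℕ → A)) (ℕ → B) F,
    all_club.2.2.2.2.2.2.1 C (ℕ → C) (C × (ℕ → C)) Prod.mk,
    all_club.2.2.2.2.2.2.1 (C × (ℕ → C)) (ℕ → A) ((C × (ℕ → C)) × (ℕ → A)) Prod.mk]
    with N hN1 hN2 hN3 hN4 hN5 hN6 Y c x z hc hx hsx hz
  obtain ⟨r, hr⟩ := hsx
  have hFN : In N (F ((c, x), z)) := hN4 _ (hN6 _ _ (hN5 _ _ hc hx) hz)
  have hpc : In N (prj g c) := hN3 c hc
  -- the interpretation
  let x' : ℕ → B := z' c x fun n => f (z n)
  have hx' : F ((c, x), z) = fun n => x' n ⊓ prj g c := rfl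
  rw [hx'] at hFN
  set x'' : ℕ → B := fun n => x' n ⊓ prj g c with hx''
  have e1 : ∀ n, prj g c ⊓ x'' n = prj g c ⊓ x' n := by
    intro n
    simp only [hx'']
    rw [inf_comm (x' n), ← inf_assoc, inf_idem]
  have i1 : prj g c ≤ itp g (prj g) c x x' := hz1 c x fun n => f (z n)
  have i2 : prj g c ≤ itp g (prj g) c x x'' := by
    have := hcongr c x x'' x' (prj g c) e1
    rw [inf_eq_left.2 i1] at this
    exact inf_eq_left.1 this
  have a1 : ∀ k, prj g (c ⊓ agr (fun a => g (f a)) z x k) ≤ agr f z x'' k := by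
    intro k
    have j1 : prj g (c ⊓ agr (fun a => g (f a)) z x k) ≤ agr f z x' k :=
      hz2 c x (fun n => f (z n)) k
    have j2 : prj g (c ⊓ agr (fun a => g (f a)) z x k) ≤ prj g c := hpm _ _ inf_le_left
    refine (le_inf j1 j2).trans ?_
    refine le_iInf fun n => le_iInf fun hn => ?_
    have j3 : agr f z x' k ≤ (f (z n) ⊓ x' n) ⊔ ((f (z n))ᶜ ⊓ (x' n)ᶜ) := iInf₂_le n hn
    refine (inf_le_inf_right _ j3).trans ?_
    rw [inf_sup_right]
    refine sup_le_sup ?_ ?_
    · rw [inf_assoc]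
    · refine inf_le_left.trans (inf_le_inf_left _ ?_)
      exact compl_le_compl inf_le_left
  have s1 : SlOn r (prj g c) x' := by
    have j1 : SlOn r c x := by
      filter_upwards [hr] with h hh _
      exact hh h.mem_top
    have j2 := hsl c x x' r j1
    filter_upwards [j2] with h hh hc
    exact hh (h.mono i1 hc)
  have s2 : Sl x'' := by
    refine ⟨r, ?_⟩
    filter_upwards [s1] with h hh _ p
    by_cases hpc : prj g c ∈ h
    · refine le_trans (Set.encard_le_encard ?_) (hh hpc p)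
      intro i hi
      exact (h.mem_inf.1 hi).1
    · have : {i | x'' (Nat.pair p i) ∈ h} = ∅ := by
        ext i
        simp only [Set.mem_ofPred_eq, Set.mem_empty_iff_false, iff_false]
        intro hi
        exact hpc (h.mem_inf.1 hi).2
      rw [this]
      simp
  have p1 := hN1 Y (prj g c) x'' z hpc hFN s2 hz
  have p2 := hN2 (fun n => f (Y n)) c x x'' hc hx ⟨r, hr⟩ hFN
  have p3 : itp (fun a => g (f a)) (prj fun a => g (f a)) c x z ≤
      itp f (prj f) (prj g c) x'' z := (hI2 A B C f g hf hg).1 c x z x'' a1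
  rw [(all_alg2 A B C f g hf hg).2.1]
  refine (inf_le_inf_right _ (inf_le_inf_left _ p3)).trans (p1.trans ?_)
  refine hAf.2.2.2.2.2.2.2.2.2.2.2.2.1 _ _ (le_trans ?_ p2)
  exact inf_le_inf_right _ (inf_le_inf_left _ i2)

end Pool.Agent.Lib.MP_6d445e_gt.H59
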