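import Pool.Agent.Lib.MP_6d445e_gt.W.Iface4
import Pool.Agent.Lib.MP_6d445e_gt.H95.Sgs

/-!
Module TOPLW: the next algebra at limits, without an inaccessible cardinal.
-/

set_option autoImplicit false

universe u

open Cardinal Filter

namespace Pool.Agent.Lib.MP_6d445e_gt.H59

open Pool.Agent.Lib.MP_100a6c_lc
open Pool.Agent.Lib.MP_c5d73d_lc.F (pr)
open Pool.Agent.Lib.MP_e6fef2_lc
open Pool.Agent.Lib.MP_6d445e_gt

/-- Module TOPLW. -/
theorem toplw (hPP : PplimStatement.{u}) (hPR : PrlimStatement.{u}) : ToplwStatement.{u} := by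
  intro κ I _ _ hI L _ _ _ hL A _ f ι M hG
  obtain ⟨-, hTop, hTP, hDP⟩ := all_limc L A f hG.ch hG.tp
  obtain ⟨i0⟩ := ‹Nonempty L›
  set e : ∀ i, A i → H1.RO (Thr A f) := fun i a => thE i a with he
  have hpel : ∀ i, PE (e i) := all_pel L A f _ e hG.ch hTop hTP hDP hG.pe
  have hcomm : ∀ i j x, e i (ι i x) = e j (ι j x) := by
    have key : ∀ i j, i ≤ j → ∀ x, e i (ι i x) = e j (ι j x) := by
      intro i j hij x
      rw [← hG.ιcomp i j hij x, hTop.comp i j hij]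
    intro i j x
    rcases le_total i j with h | h
    · exact key i j h x
    · exact (key j i h x).symm
  have hιC : IsCE (fun x => e i0 (ι i0 x)) := (all_alg2 _ _ _ (ι i0) (e i0) (hG.ιce i0) (hTop.ce i0)).1
  have hιP : PE (fun x => e i0 (ι i0 x)) :=
    (all_pec _ _ _ (ι i0) (e i0) (hG.ιce i0) (hTop.ce i0)).1 (hG.ιpe i0) (hpel i0)
  have hX : #(⋃ i, (e i '' M i) : Set (H1.RO (Thr A f))) < κ :=
    H60.small_union hI.reg hL _ fun i => lt_of_le_of_lt Cardinal.mk_image_le (hG.Mcard i)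
  obtain ⟨M', hM1, hM2, hM3⟩ := all_idx.2.2.2.2 κ _ _ hI.pow hI.unc hX
  have hmap : ∀ i, ∀ m ∈ M i, e i m ∈ M' := fun i m hm =>
    hM2 (Set.mem_iUnion.2 ⟨i, Set.mem_image_of_mem _ hm⟩)
  have hdm : DM (fun x => e i0 (ι i0 x)) M' :=
    all_rdm Sw.{u} H95.sgs.1 L A f _ e ι M hG.ch hTop hTP hDP hG.pe hG.ιce hG.ιpe hG.ιcomp hG.sig
      hG.Mdm hG.Mmap M' hM1 hmap i0
  exact ⟨H1.RO (Thr A f), inferInstance, e, fun x => e i0 (ι i0 x), M',
    { top := hTop
      ιce := hιC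
      ιcomp := fun i x => hcomm i i0 x
      pe := hpel
      ιpe := hιP
      tp := hTP
      dp := fun _ _ => hDP
      sig := hM1
      Mmap := hmap
      Mcard := hM3
      Mdm := hdm
      pp := hPP L A f _ e ι hG.ch hTop hTP hDP hG.pe hG.ιce hG.ιpe hG.ιcomp hG.pp i0
      pres := fun i => hPR L A f _ e hG.ch hTop hTP hDP hG.pres i }⟩

end Pool.Agent.Lib.MP_6d445e_gt.H59
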